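import Pool.Agent.Helper66.ETC.Defs

set_option autoImplicit false

/-! # Involutions of a quadratically closed field, and convex valuation rings

`K` is closed under square roots, `τ` is an automorphism of order two of `K/F`. The squares of the
elements of the fixed field `L = K^τ` are the nonnegative elements of an ordering of `L`. A valuation
ring `R` of `F` with `1 + m_R` positive is convex and is the restriction of a `τ`-invariant
valuation ring of `K`. -/

namespace Pool.Agent.Helper14.ER

open Pool.Agent.ETC (Dec mem_Dec TR Sm mem_TR)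

section
variable {F K : Type} [Field F] [Field K] [Algebra F K] {τ : K ≃ₐ[F] K}

/-- an automorphism of order two of a field closed under square roots -/
structure Iv (τ : K ≃ₐ[F] K) : Prop where
  root : ∀ x : K, ∃ y : K, y ^ 2 = x
  inv : ∀ x, τ (τ x) = x
  ne : τ ≠ 1
  two : (2 : K) ≠ 0

/-- the squares of the elements fixed by `τ` -/
def Sq (τ : K ≃ₐ[F] K) (x : K) : Prop := ∃ y : K, τ y = y ∧ y ^ 2 = x

lemma Sq.fix {x : K} (h : Sq τ x) : τ x = x := by
  obtain ⟨y, hy, rfl⟩ := h
  rw [map_pow, hy]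

lemma Sq.zero : Sq τ 0 := ⟨0, map_zero _, by ring⟩

lemma Sq.one : Sq τ 1 := ⟨1, map_one _, by ring⟩

lemma Sq.sq {x : K} (h : τ x = x) : Sq τ (x ^ 2) := ⟨x, h, rfl⟩

lemma Sq.mul {x y : K} (hx : Sq τ x) (hy : Sq τ y) : Sq τ (x * y) := by
  obtain ⟨a, ha, rfl⟩ := hx
  obtain ⟨b, hb, rfl⟩ := hy
  exact ⟨a * b, by rw [map_mul, ha, hb], by ring⟩

lemma Sq.inv {x : K} (hx : Sq τ x) : Sq τ x⁻¹ := by
  obtain ⟨a, ha, rfl⟩ := hx
  exact ⟨a⁻¹, by rw [map_inv₀, ha], by rw [inv_pow]⟩

namespace Iv
variable (h : Iv τ)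
include h

/-- norms to the fixed field are squares -/
lemma norm (z : K) : Sq τ (z * τ z) := by
  obtain ⟨s, rfl⟩ := h.root z
  refine ⟨s * τ s, ?_, ?_⟩
  · rw [map_mul, h.inv, mul_comm]
  · rw [map_pow]
    ring

/-- there are elements with `τ y = -y` -/
lemma exists_skew : ∃ y : K, y ≠ 0 ∧ τ y = -y := by
  obtain ⟨z, hz⟩ : ∃ z, τ z ≠ z := by
    by_contra hc
    push Not at hc
    exact h.ne (AlgEquiv.ext hc)
  refine ⟨z - τ z, sub_ne_zero.2 (Ne.symm hz), ?_⟩
  rw [map_sub, h.inv]
  ring

lemma eq_of_sq {x y : K} (hxy : x ^ 2 = y ^ 2) : x = y ∨ x = -y := sq_eq_sq_iff_eq_or_eq_neg.1 hxy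

lemma neg_ne {y : K} (hy : y ≠ 0) : y ≠ -y := by
  intro h1
  have h2 : (2 : K) * y = 0 := by linear_combination h1
  rcases mul_eq_zero.1 h2 with h3 | h3
  · exact h.two h3
  · exact hy h3

/-- the square roots of `-1` are not fixed -/
lemma neg_one {i : K} (hi : i ^ 2 = -1) : τ i = -i := by
  have h1 : (τ i) ^ 2 = i ^ 2 := by rw [← map_pow, hi, map_neg, map_one]
  rcases h.eq_of_sq h1 with h2 | h2
  · exfalso
    obtain ⟨y, hy0, hy⟩ := h.exists_skew
    obtain ⟨s, hs⟩ := h.root y
    have h3 : (s * τ s) ^ 2 = (i * y) ^ 2 := by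
      have h4 : (τ s) ^ 2 = -y := by rw [← map_pow, hs, hy]
      rw [mul_pow, hs, h4]
      linear_combination (-(y ^ 2)) * hi
    have h4 : τ (s * τ s) = s * τ s := by rw [map_mul, h.inv, mul_comm]
    have hi0 : i ≠ 0 := by
      rintro rfl
      simp at hi
    rcases h.eq_of_sq h3 with h5 | h5
    · rw [h5, map_mul, h2, hy] at h4
      exact h.neg_ne (mul_ne_zero hi0 hy0) (by linear_combination -h4)
    · rw [h5, map_neg, map_mul, h2, hy] at h4
      exact h.neg_ne (mul_ne_zero hi0 hy0) (by linear_combination h4)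
  · exact h2

/-- every fixed element or its negative is a square -/
lemma dich {x : K} (hx : τ x = x) : Sq τ x ∨ Sq τ (-x) := by
  obtain ⟨y, hy⟩ := h.root x
  obtain ⟨i, hi⟩ := h.root (-1)
  have h1 : (τ y) ^ 2 = y ^ 2 := by rw [← map_pow, hy, hx]
  rcases h.eq_of_sq h1 with h2 | h2
  · exact Or.inl ⟨y, h2, hy⟩
  · refine Or.inr ⟨i * y, ?_, ?_⟩
    · rw [map_mul, h.neg_one hi, h2]
      ring
    · rw [mul_pow, hi, hy]
      ring

lemma anti {x : K} (h1 : Sq τ x) (h2 : Sq τ (-x)) : x = 0 := by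
  obtain ⟨a, ha, rfl⟩ := h1
  obtain ⟨b, hb, hb2⟩ := h2
  by_contra hne
  have ha0 : a ≠ 0 := by
    rintro rfl
    exact hne (by ring)
  have h3 : (b / a) ^ 2 = -1 := by
    rw [div_pow, hb2, neg_div, div_self hne]
  have h4 := h.neg_one h3
  rw [map_div₀, ha, hb] at h4
  refine h.neg_ne ?_ h4
  intro h5
  rw [h5] at h3
  simp at h3

/-- a sum of squares is a square -/
lemma add {x y : K} (hx : Sq τ x) (hy : Sq τ y) : Sq τ (x + y) := by
  obtain ⟨a, ha, rfl⟩ := hx
  obtain ⟨b, hb, rfl⟩ := hy
  obtain ⟨i, hi⟩ := h.root (-1)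
  have h1 := h.norm (a + b * i)
  have h2 : (a + b * i) * τ (a + b * i) = a ^ 2 + b ^ 2 := by
    rw [map_add, map_mul, ha, hb, h.neg_one hi]
    linear_combination (-(b ^ 2)) * hi
  rwa [h2] at h1

lemma natCast (n : ℕ) : Sq τ (n : K) := by
  induction n with
  | zero => rw [Nat.cast_zero]; exact Sq.zero
  | succ n ih => rw [Nat.cast_succ]; exact h.add ih Sq.one

/-- the valuation ring of the elements whose norm is bounded by an element of `R` -/
def hull (R : ValuationSubring F) : ValuationSubring K where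
  carrier := {z | ∃ r ∈ R, Sq τ (algebraMap F K r - z * τ z)}
  zero_mem' := ⟨0, R.zero_mem, by rw [map_zero, map_zero, zero_mul, sub_zero]; exact Sq.zero⟩
  one_mem' := ⟨1, R.one_mem, by rw [map_one, map_one, mul_one, sub_self]; exact Sq.zero⟩
  neg_mem' := by
    rintro z ⟨r, hr, h1⟩
    refine ⟨r, hr, ?_⟩
    rwa [map_neg, neg_mul_neg]
  mul_mem' := by
    rintro z w ⟨r, hr, h1⟩ ⟨s, hs, h2⟩
    refine ⟨r * s, R.mul_mem _ _ hr hs, ?_⟩
    have h3 : Sq τ (algebraMap F K r) := by
      have := h.add h1 (h.norm z)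
      rwa [sub_add_cancel] at this
    have h4 := h.add (h3.mul h2) (h1.mul (h.norm w))
    have e : algebraMap F K (r * s) - z * w * τ (z * w) =
        algebraMap F K r * (algebraMap F K s - w * τ w) +
          (algebraMap F K r - z * τ z) * (w * τ w) := by
      rw [map_mul, map_mul]
      ring
    rwa [e]
  add_mem' := by
    rintro z w ⟨r, hr, h1⟩ ⟨s, hs, h2⟩
    refine ⟨2 * (r + s), R.mul_mem _ _ ?_ (R.add_mem _ _ hr hs), ?_⟩
    · have h3 : (2 : F) = 1 + 1 := by norm_num
      rw [h3]
      exact R.add_mem _ _ R.one_mem R.one_mem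
    have h3 : Sq τ (2 : K) := by
      have := h.natCast 2
      rwa [Nat.cast_two] at this
    have h4 := h.add (h3.mul (h.add h1 h2)) (h.norm (z - w))
    have e : algebraMap F K (2 * (r + s)) - (z + w) * τ (z + w) =
        2 * (algebraMap F K r - z * τ z + (algebraMap F K s - w * τ w)) +
          (z - w) * τ (z - w) := by
      rw [map_mul, map_add, map_add, map_sub, map_ofNat]
      ring
    rwa [e]
  mem_or_inv_mem' := by
    intro z
    by_cases hz : z = 0
    · left
      rw [hz]
      exact ⟨0, R.zero_mem, by rw [map_zero, map_zero, zero_mul, sub_zero]; exact Sq.zero⟩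
    have h1 : τ (1 - z * τ z) = 1 - z * τ z := by
      rw [map_sub, map_one, (h.norm z).fix]
    rcases h.dich h1 with h2 | h2
    · left
      exact ⟨1, R.one_mem, by rw [map_one]; exact h2⟩
    · right
      refine ⟨1, R.one_mem, ?_⟩
      have hz' : τ z ≠ 0 := (map_ne_zero_iff τ τ.injective).2 hz
      have h3 := h2.mul (h.norm z).inv
      have e : algebraMap F K 1 - z⁻¹ * τ z⁻¹ = -(1 - z * τ z) * (z * τ z)⁻¹ := by
        rw [map_one, map_inv₀]
        field_simp
        ring
      rwa [e]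

lemma mem_hull {R : ValuationSubring F} {z : K} :
    z ∈ h.hull R ↔ ∃ r ∈ R, Sq τ (algebraMap F K r - z * τ z) := Iff.rfl

lemma hull_dec (R : ValuationSubring F) : τ ∈ Dec F (h.hull R) := by
  intro z
  rw [h.mem_hull, h.mem_hull, h.inv, mul_comm]

lemma hull_comap {R : ValuationSubring F}
    (hR : ∀ x : F, R.valuation x < 1 → Sq τ (algebraMap F K (1 + x))) :
    (h.hull R).comap (algebraMap F K) = R := by
  ext f
  rw [ValuationSubring.mem_comap, h.mem_hull]
  constructor
  · rintro ⟨r, hr, h1⟩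
    by_contra hf
    have hf0 : f ≠ 0 := by
      rintro rfl
      exact hf R.zero_mem
    have hv : 1 < R.valuation f := by
      rw [← not_le, R.valuation_le_one_iff]
      exact hf
    have hv2 : R.valuation (f ^ 2)⁻¹ < 1 := by
      rw [map_inv₀, map_pow]
      exact inv_lt_one_of_one_lt₀ (one_lt_pow₀ hv two_ne_zero)
    have h2 : R.valuation (-(r * (f ^ 2)⁻¹)) < 1 := by
      rw [Valuation.map_neg, map_mul]
      exact lt_of_le_of_lt (mul_le_of_le_one_left' ((R.valuation_le_one_iff r).2 hr)) hv2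
    have h3 := hR _ h2
    have hfx : τ (algebraMap F K f) = algebraMap F K f := τ.commutes f
    have hk0 : algebraMap F K f ≠ 0 := (map_ne_zero_iff _ (algebraMap F K).injective).2 hf0
    have h4 := h3.mul (Sq.sq hfx)
    have e : algebraMap F K (1 + -(r * (f ^ 2)⁻¹)) * algebraMap F K f ^ 2 =
        -(algebraMap F K r - algebraMap F K f * τ (algebraMap F K f)) := by
      rw [hfx]
      simp only [map_add, map_one, map_neg, map_mul, map_inv₀, map_pow]
      field_simp
      ring
    rw [e] at h4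
    have h5 := h.anti h1 h4
    rw [hfx, ← map_mul, ← map_sub, map_eq_zero_iff _ (algebraMap F K).injective, sub_eq_zero] at h5
    have h6 : 1 < R.valuation (f * f) := by
      rw [map_mul]
      exact one_lt_mul'' hv hv
    rw [← h5, ← not_le, R.valuation_le_one_iff] at h6
    exact h6 hr
  · intro hf
    refine ⟨f * f, R.mul_mem _ _ hf hf, ?_⟩
    have hfx : τ (algebraMap F K f) = algebraMap F K f := τ.commutes f
    rw [hfx, map_mul, sub_self]
    exact Sq.zero

/-- a valuation ring `R` of `F` with `1 + m_R` positive is the restriction of a `τ`-invariant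
valuation ring of `K` -/
theorem exists_place {R : ValuationSubring F}
    (hR : ∀ x : F, R.valuation x < 1 → Sq τ (algebraMap F K (1 + x))) :
    ∃ W : ValuationSubring K, W.comap (algebraMap F K) = R ∧ τ ∈ Dec F W :=
  ⟨h.hull R, h.hull_comap hR, h.hull_dec R⟩

/-- `1 + x` is not positive for all `|x| < |4|` if `|2| < 1` -/
theorem not_wild {R : ValuationSubring F} (h2 : R.valuation (2 : F) < 1)
    (hR : ∀ x : F, R.valuation x < R.valuation (2 : F) ^ 2 → Sq τ (algebraMap F K (1 + x))) :
    False := by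
  have h20 : (2 : F) ≠ 0 := by
    intro h0
    apply h.two
    have := congrArg (algebraMap F K) h0
    rwa [map_ofNat, map_zero] at this
  have hv : 0 < R.valuation (2 : F) := zero_lt_iff.2 ((Valuation.ne_zero_iff _).2 h20)
  have h8 : R.valuation (-(2 ^ 3) : F) < R.valuation (2 : F) ^ 2 := by
    rw [Valuation.map_neg, map_pow]
    exact pow_lt_pow_right_of_lt_one₀ hv h2 (by norm_num)
  have h3 := hR _ h8
  have h4 := h.natCast 7
  have e : algebraMap F K (1 + -(2 ^ 3)) = -((7 : ℕ) : K) := by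
    simp only [map_add, map_one, map_neg, map_pow, map_ofNat]
    push_cast
    norm_num
  rw [e] at h3
  have h5 := h.anti h4 h3
  have h6 : (7 : F) = 0 := by
    have h7 : algebraMap F K 7 = 0 := by
      rw [map_ofNat]
      exact_mod_cast h5
    exact (map_eq_zero_iff _ (algebraMap F K).injective).1 h7
  have h7 : R.valuation (2 ^ 3 : F) = 1 := by
    have e : (2 ^ 3 : F) = 1 := by linear_combination h6
    rw [e, map_one]
  rw [map_pow] at h7
  exact absurd h7 (pow_lt_one₀ zero_le h2 (by norm_num)).ne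

end Iv

end

end Pool.Agent.Helper14.ER
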