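import Pool.Agent.Helper66.ETC.Conj2
import Pool.Agent.Helper58.EU.Ord
import Pool.Agent.Helper14.ER.Inv

set_option autoImplicit false

/-! # Orderings of involutions inside places -/

namespace Pool.Agent.Helper14.ER

open Pool.Agent.ETC (Dec mem_Dec TR Sm mem_TR conj)
open Pool.Agent.Helper58.EU (Ordg)

section
variable {F K : Type} [Field F] [Field K] [Algebra F K] {τ : K ≃ₐ[F] K}

/-- the ordering given by an involution: the elements of `F` with square roots fixed by `τ` -/
def Pos (τ : K ≃ₐ[F] K) : Subgroup Fˣ where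
  carrier := {f | Sq τ (algebraMap F K (f : F))}
  one_mem' := by
    show Sq τ (algebraMap F K ((1 : Fˣ) : F))
    rw [Units.val_one, map_one]
    exact Sq.one
  mul_mem' := by
    intro a b ha hb
    show Sq τ (algebraMap F K ((a * b : Fˣ) : F))
    rw [Units.val_mul, map_mul]
    exact Sq.mul ha hb
  inv_mem' := by
    intro a ha
    show Sq τ (algebraMap F K ((a⁻¹ : Fˣ) : F))
    rw [Units.val_inv_eq_inv_val, map_inv₀]
    exact Sq.inv ha

lemma mem_Pos {f : Fˣ} : f ∈ Pos τ ↔ Sq τ (algebraMap F K (f : F)) := Iff.rfl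

/-- an involution of `F(2)` -/
lemma Iv.of {ζ : F} (hζ : IsPrimitiveRoot ζ 2) (hroot : ∀ x : K, ∃ y : K, y ^ 2 = x)
    (h1 : τ * τ = 1) (h2 : τ ≠ 1) : Iv τ where
  root := hroot
  inv x := by rw [← AlgEquiv.mul_apply, h1, AlgEquiv.one_apply]
  ne := h2
  two h0 := by
    have h3 := hζ.eq_neg_one_of_two_right
    have h4 : (2 : F) = 0 := by
      apply (algebraMap F K).injective
      rw [map_ofNat, map_zero]
      exact h0
    apply hζ.ne_one (by norm_num)
    rw [h3]
    linear_combination -h4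

/-- the positive elements are the elements whose square roots are fixed -/
lemma mem_Pos_iff (h : Iv τ) {f : Fˣ} :
    f ∈ Pos τ ↔ ∀ α : K, α ^ 2 = algebraMap F K (f : F) → τ α = α := by
  constructor
  · rintro ⟨y, hy, hy2⟩ α hα
    rcases sq_eq_sq_iff_eq_or_eq_neg.1 (hα.trans hy2.symm) with h1 | h1
    · rw [h1, hy]
    · rw [h1, map_neg, hy]
  · intro h1
    obtain ⟨y, hy⟩ := h.root (algebraMap F K (f : F))
    exact ⟨y, h1 y hy, hy⟩

lemma ordg (h : Iv τ) : Ordg (Pos τ) where
  neg h1 := by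
    rw [mem_Pos, Units.val_neg, Units.val_one, map_neg, map_one] at h1
    exact one_ne_zero (h.anti Sq.one h1)
  tot u := by
    rw [mem_Pos, mem_Pos, Units.val_neg, map_neg]
    exact h.dich (τ.commutes _)
  add u hu := by
    have h1 : (1 : F) + u ≠ 0 := by
      intro h0
      have h2 : (u : F) = -1 := by linear_combination h0
      rw [mem_Pos, h2, map_neg, map_one] at hu
      exact one_ne_zero (h.anti Sq.one hu)
    refine ⟨Units.mk0 _ h1, rfl, ?_⟩
    rw [mem_Pos, Units.val_mk0, map_add, map_one]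
    exact h.add Sq.one hu

/-- the one-units are positive -/
lemma one_add {ζ : F} (hζ : IsPrimitiveRoot ζ 2) {R : ValuationSubring F}
    (hT : TR 2 ζ R ≤ Pos τ) {x : F} (hx : R.valuation x < R.valuation (2 : F) ^ 2) :
    Sq τ (algebraMap F K (1 + x)) := by
  have h1 := hζ.eq_neg_one_of_two_right
  have h2 : Sm 2 ζ R x := by
    unfold Sm
    rw [h1, sub_neg_eq_add, one_add_one_eq_two]
    exact hx
  have h3 := h2.lt_one two_ne_zero hζ.pow_eq_one
  have h4 : (1 : F) + x ≠ 0 := by
    intro h0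
    have h5 := R.valuation.map_one_add_of_lt h3
    rw [h0, map_zero] at h5
    exact zero_ne_one h5
  have h5 : Units.mk0 _ h4 ∈ TR 2 ζ R := by
    rw [mem_TR two_ne_zero hζ.pow_eq_one (hζ.ne_one (by norm_num))]
    exact ⟨1, x, h2, by simp⟩
  exact hT h5

/-- an ordering of an involution inside a tame place: the involution is in the decomposition
group, up to conjugacy -/
theorem cover_tame [IsGalois F K] (h : Iv τ) {ζ : F} (hζ : IsPrimitiveRoot ζ 2)
    {W : ValuationSubring K} (hpv : (W.comap (algebraMap F K)).valuation (2 : F) = 1)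
    (hT : TR 2 ζ (W.comap (algebraMap F K)) ≤ Pos τ) :
    ∃ g : K ≃ₐ[F] K, g⁻¹ * τ * g ∈ Dec F W := by
  obtain ⟨V, hV, hd⟩ := h.exists_place (R := W.comap (algebraMap F K)) (fun x hx =>
    one_add hζ hT (by rw [hpv, one_pow]; exact hx))
  obtain ⟨g, hg⟩ := conj W V hV.symm
  refine ⟨g, fun x => ?_⟩
  rw [AlgEquiv.mul_apply, AlgEquiv.mul_apply]
  rw [← hg, ← AlgEquiv.mul_apply g g⁻¹, mul_inv_cancel, AlgEquiv.one_apply, mem_Dec.1 hd, hg]

/-- there is no ordering inside a wild place -/
theorem no_wild (h : Iv τ) {ζ : F} (hζ : IsPrimitiveRoot ζ 2) {R : ValuationSubring F}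
    (hpv : R.valuation (2 : F) < 1) (hT : TR 2 ζ R ≤ Pos τ) : False :=
  h.not_wild hpv fun _ hx => one_add hζ hT hx

/-- an ordering inside an ordering -/
lemma ordg_eq {P Q : Subgroup Fˣ} (hP : Ordg P) (hQ : Ordg Q) (h : P ≤ Q) : P = Q := by
  refine le_antisymm h fun u hu => ?_
  rcases hP.tot u with h1 | h1
  · exact h1
  · exfalso
    apply hQ.neg
    have h2 := Q.mul_mem (h h1) (Q.inv_mem hu)
    rwa [neg_mul, mul_inv_cancel] at h2

end

end Pool.Agent.Helper14.ER
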