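import Pool.Agent.ETC.All
import Pool.Agent.Helper14.ER.Cover

set_option autoImplicit false

/-! # Orderings and places: `S_V2O` and `S_COMPO` -/

namespace Pool.Agent.Helper14.ER

open Pool.Agent.ETC
open Pool.Agent.Helper58.EU (Ordg)

/-- no ordering contains the group of a `2`-adic place -/
theorem t_V2O : S_V2O := by
  intro F _ ζ hζ R hR P hP hT
  have h2 : R.valuation (2 : F) < 1 := by
    have := hR.pv
    rwa [Nat.cast_two] at this
  have h20 : (2 : F) ≠ 0 := by
    intro h0
    apply hζ.ne_one (by norm_num)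
    rw [hζ.eq_neg_one_of_two_right]
    linear_combination -h0
  have hv : 0 < R.valuation (2 : F) := zero_lt_iff.2 ((Valuation.ne_zero_iff _).2 h20)
  -- the natural numbers are positive
  have hnat : ∀ n : ℕ, ∃ z : Fˣ, (z : F) = ((n + 1 : ℕ) : F) ∧ z ∈ P := by
    intro n
    induction n with
    | zero => exact ⟨1, by simp, P.one_mem⟩
    | succ n ih =>
      obtain ⟨z, hz, hzP⟩ := ih
      obtain ⟨w, hw, hwP⟩ := hP.add z hzP
      refine ⟨w, ?_, hwP⟩
      rw [hw, hz]
      push_cast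
      ring
  obtain ⟨z, hz, hzP⟩ := hnat 6
  have h8 : Sm 2 ζ R (-(2 ^ 3)) := by
    unfold Sm
    rw [hζ.eq_neg_one_of_two_right, sub_neg_eq_add, one_add_one_eq_two, Valuation.map_neg, map_pow]
    exact pow_lt_pow_right_of_lt_one₀ hv h2 (by norm_num)
  have h7 : -z ∈ TR 2 ζ R := by
    rw [mem_TR two_ne_zero hζ.pow_eq_one (hζ.ne_one (by norm_num))]
    refine ⟨1, _, h8, ?_⟩
    rw [Units.val_neg, hz]
    push_cast
    norm_num
  apply hP.neg
  have h9 := P.mul_mem (hT h7) (P.inv_mem hzP)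
  rwa [neg_mul, mul_inv_cancel] at h9

/-- orderings above a tame place -/
theorem t_COMPO : S_COMPO := by
  intro F K _ _ _ ζ hζ hK W hW τ hτ hT
  have hI : Iv τ := Iv.of hζ hK.root hτ.1 hτ.2
  have := hK.gal
  have hle : TR 2 ζ (W.comap (algebraMap F K)) ≤ Pos τ := by
    intro t ht
    rw [mem_Pos_iff hI]
    intro α hα
    exact hT t ht α hα τ (Subgroup.mem_zpowers τ)
  rcases hW.1 with h1 | h2
  · refine cover_tame hI hζ ?_ hle
    have := h1.pv
    rwa [Nat.cast_two] at this
  · exact absurd hle (t_V2O F ζ hζ _ h2 _ (ordg hI))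

end Pool.Agent.Helper14.ER
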