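import Pool.Agent.ETC.All

set_option autoImplicit false

/-! # The class of the local groups goes down -/

namespace Pool.Agent.Helper14.ER

open Pool.Agent.ETC

/-- the class of the local groups goes down in cyclic extensions of degree `p` -/
theorem d_down (hS : S_STARA) (p : ℕ) [Fact p.Prime] (K : Type) [Field K] :
    ∀ (F E : Type) [Field F] [Field E] [Algebra F E] [Algebra E K] [Algebra F K]
      [IsScalarTower F E K] [FiniteDimensional F E] [IsGalois F E], (∃ ζ : F, IsPrimitiveRoot ζ p) →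
      PCl p F K → Module.finrank F E = p → (powMonoidHom p : Fˣ →* Fˣ).range.index ≠ 0 →
      ∀ Z : Subgroup (K ≃ₐ[E] K), Dz p Z →
        ∃ Z' : Subgroup (K ≃ₐ[F] K), Dz p Z' ∧ Z.map (resS F E K) ≤ Z' := by
  intro F E _ _ _ _ _ _ _ _ hζ hK hfr hfin Z hZ
  rcases hZ with ⟨W, rfl, hW⟩ | ⟨h2, τ, hτ, rfl⟩
  · refine ⟨Dec F W, Or.inl ⟨W, rfl, fun ζ hζ' => ?_⟩, ?_⟩
    · have h1 : IsPrimitiveRoot (algebraMap F E ζ) p := hζ'.map_of_injective (algebraMap F E).injective
      have h2 := hS p F E ζ hζ' hfr hfin _ (hW _ h1)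
      have h3 : (W.comap (algebraMap E K)).comap (algebraMap F E) = W.comap (algebraMap F K) := by
        ext x
        rw [ValuationSubring.mem_comap, ValuationSubring.mem_comap, ValuationSubring.mem_comap,
          ← IsScalarTower.algebraMap_apply]
      rwa [h3] at h2
    · rintro _ ⟨σ, hσ, rfl⟩
      exact hσ
  · refine ⟨Subgroup.zpowers (resS F E K τ), Or.inr ⟨h2, _, ⟨?_, ?_⟩, rfl⟩, ?_⟩
    · rw [← map_mul, hτ.1, map_one]
    · intro h
      apply hτ.2
      ext x
      have := congrArg (fun f : K ≃ₐ[F] K => f x) h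
      exact this
    · rw [MonoidHom.map_zpowers]

end Pool.Agent.Helper14.ER
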